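import Pool.Agent.U745.DS.EP
import Pool.Agent.U745.DS.Use

/-!
# The smoothed products of an entire function with an Euler product over rational primes

`L` is entire, and for `Re s > w + 1` it is the product over the primes `p` not dividing `B` of
`∏_{α ∈ A p} (1 - α p^{-s})⁻¹`, `|α| ≤ p^w`.
-/

set_option autoImplicit false

namespace Pool.Agent.U745.QB

open Filter Topology Complex
open Pool.Agent.U745.DS
open Pool.Agent.U745.LT (Leading leading_iff)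
open Pool.Agent.W189.ML (grow)

/-- the primes which do not divide `B` -/
abbrev PP (B : ℤ) : Type := {p : ℕ // p.Prime ∧ ¬ (p : ℤ) ∣ B}

/-- the norm -/
abbrev qq (B : ℤ) (p : PP B) : ℕ := p.1

theorem norms (B : ℤ) : G.Norms (qq B) where
  two := fun p => p.2.1.two_le
  sum := fun σ hσ => by
    have h : Summable fun p : Nat.Primes => ((p : ℕ) : ℝ) ^ (-σ) :=
      Nat.Primes.summable_rpow.2 (by linarith)
    set i : PP B → Nat.Primes := fun p => ⟨p.1, p.2.1⟩ with hidef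
    have hi : Function.Injective i := by
      intro a b hab
      have : a.1 = b.1 := congrArg (fun z : Nat.Primes => (z : ℕ)) hab
      exact Subtype.ext this
    have h2 : Summable ((fun p : Nat.Primes => ((p : ℕ) : ℝ) ^ (-σ)) ∘ i) := h.comp_injective hi
    refine h2.congr fun v => ?_
    rfl

theorem exists_fun (A : Multiset ℂ) {N : ℕ} (hN : A.card = N) :
    ∃ f : Fin N → ℂ, Finset.univ.val.map f = A := by
  subst hN
  induction A using Quotient.inductionOn with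
  | h l =>
    refine ⟨fun i => l.get i, ?_⟩
    rw [Fin.univ_val_map]
    exact congrArg _ (List.ofFn_get l)

/-- the coefficients -/
noncomputable def co (B : ℤ) (t : ℕ → ℕ → ℂ) (x : PP B × ℕ) : ℂ := t x.1.1 (x.2 + 1) / (x.2 + 1)

variable {B : ℤ} {N : ℕ} {w : ℝ} {A : ℕ → Multiset ℂ} {t : ℕ → ℕ → ℂ} {L : ℂ → ℂ}

/-- the hypotheses -/
structure Data (B : ℤ) (N : ℕ) (w : ℝ) (A : ℕ → Multiset ℂ) (t : ℕ → ℕ → ℂ) (L : ℂ → ℂ) : Prop where
  ent : Differentiable ℂ L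
  card : ∀ p : ℕ, p.Prime → ¬ (p : ℤ) ∣ B → (A p).card = N
  bd : ∀ p : ℕ, p.Prime → ¬ (p : ℤ) ∣ B → ∀ α ∈ A p, ‖α‖ ≤ (p : ℝ) ^ w
  tr : ∀ p : ℕ, p.Prime → ¬ (p : ℤ) ∣ B → ∀ r : ℕ, 0 < r → t p r = ((A p).map (fun α => α ^ r)).sum
  prod : ∀ s : ℂ, w + 1 < s.re → HasProd (fun p : PP B =>
    ((A p.1).map (fun α => (1 - α * ((p.1 : ℕ) : ℂ) ^ (-s))⁻¹)).prod) (L s)

theorem Data.half (h : Data B N w A t L) (σ₀ : ℝ) : Half (G.plam (qq B)) (co B t) σ₀ (w + 1) L := by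
  have hex : ∀ p : PP B, ∃ f : Fin N → ℂ, Finset.univ.val.map f = A p.1 := fun p =>
    exists_fun (A p.1) (h.card p.1 p.2.1 p.2.2)
  choose f hf using hex
  have hmem : ∀ (p : PP B) (j : Fin N), f p j ∈ A p.1 := by
    intro p j
    rw [← hf p]
    exact Multiset.mem_map_of_mem _ (Finset.mem_univ_val j)
  have hco : co B t = G.pco f := by
    funext x
    unfold co G.pco
    rw [h.tr x.1.1 x.1.2.1 x.1.2.2 (x.2 + 1) (Nat.succ_pos _), ← hf x.1, Multiset.map_map]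
    rfl
  rw [hco]
  refine G.half_nf (norms B) (fun v j => h.bd v.1 v.2.1 v.2.2 _ (hmem v j))
    (fun s _ => (h.ent.analyticAt s).meromorphicAt) (fun s hs => ?_)
  have h1 := (h.prod s hs).tprod_eq
  rw [← h1]
  unfold G.EPr
  refine tprod_congr fun p => ?_
  rw [← hf p, Multiset.map_map]
  rfl

theorem Data.ser (h : Data B N w A t L) (s₀ : ℂ) :
    Ser (G.plam (qq B)) (sh (G.plam (qq B)) (co B t) s₀) (max (w + 1 - s₀.re) 0)
      (fun s => L (s₀ + s)) := (h.half s₀.re).at le_rfl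

/-- the term of the series at `p^k`, `k = j + 1`: `t(p^k) p^{-k s₀} / (k Γ(1 + ω k log p / log x))` -/
noncomputable def tm (B : ℤ) (t : ℕ → ℕ → ℂ) (s₀ : ℂ) (τ x : ℝ) (i : PP B × ℕ) : ℂ :=
  t i.1.1 (i.2 + 1) * (((i.1.1 : ℕ) : ℂ) ^ (-s₀)) ^ (i.2 + 1) / ((i.2 + 1) *
    Gamma (1 + (1 + τ * I) * (((i.2 + 1) * Real.log (i.1.1 : ℕ) : ℝ) / Real.log x)))

lemma tm_eq (s₀ : ℂ) (τ x : ℝ) (i : PP B × ℕ) : tm B t s₀ τ x i =
    sh (G.plam (qq B)) (co B t) s₀ i *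
      (Gamma (1 + Pool.Agent.W524.RY.dir τ * (G.plam (qq B) i / Real.log x)))⁻¹ := by
  unfold tm sh
  rw [G.exp_plam (norms B)]
  have e2 : G.plam (qq B) i = (i.2 + 1) * Real.log (i.1.1 : ℕ) := rfl
  rw [e2]
  unfold co Pool.Agent.W524.RY.dir
  rw [div_eq_mul_inv, mul_inv, div_eq_mul_inv]
  ring

/-- the order of an entire function -/
lemma order_zero_iff (hL : Differentiable ℂ L) (z : ℂ) : meromorphicOrderAt L z = 0 ↔ L z ≠ 0 := by
  have ha := hL.analyticAt z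
  rw [← ha.analyticOrderAt_eq_zero, ha.meromorphicOrderAt_eq]
  generalize analyticOrderAt L z = o
  cases o with
  | top => simp
  | coe n =>
    constructor
    · intro h
      have h1 : ((n : ℤ) : WithTop ℤ) = 0 := h
      have h2 : (n : ℤ) = 0 := by exact_mod_cast h1
      have h3 : n = 0 := by exact_mod_cast h2
      rw [h3]
      rfl
    · intro h
      have h3 : n = 0 := by exact_mod_cast h
      rw [h3]
      rfl

lemma clear_iff' (hL : Differentiable ℂ L) (s₀ : ℂ) (τ : ℝ) : Clear (fun z => L (s₀ + z)) τ ↔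
    ∀ y : ℝ, 0 < y → L (s₀ + (1 + τ * I) * y) ≠ 0 := by
  rw [clear_iff]
  refine forall_congr' fun y => imp_congr_right fun _ => ?_
  rw [order_zero_iff hL]
  rfl

theorem Data.finite (h : Data B N w A t L) (s₀ : ℂ) (b : ℝ) :
    {τ : ℝ | |τ| ≤ b ∧ ¬ ∀ y : ℝ, 0 < y → L (s₀ + (1 + τ * I) * y) ≠ 0}.Finite := by
  refine ((h.ser s₀).blocked_finite b).subset ?_
  rintro τ ⟨h1, h2⟩
  rw [← clear_iff' h.ent] at h2
  unfold Clear at h2
  push Not at h2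
  exact ⟨h1, h2⟩

theorem Data.summ (h : Data B N w A t L) (s₀ : ℂ) (τ : ℝ) {x : ℝ} (hx : 1 < x) :
    Summable fun i => ‖tm B t s₀ τ x i‖ := by
  have : Countable (PP B × ℕ) := inferInstance
  refine (VV_summable (h.ser s₀) τ (Real.log_pos hx)).congr fun i => ?_
  rw [tm_eq]

lemma sum_eq (s₀ : ℂ) (τ x : ℝ) : ∑' i, tm B t s₀ τ x i =
    WW (G.plam (qq B)) (sh (G.plam (qq B)) (co B t) s₀) τ x := by
  unfold WW VV
  exact tsum_congr fun i => tm_eq s₀ τ x i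

/-- the law in the free directions -/
theorem Data.law (h : Data B N w A t L) {s₀ : ℂ} {r : ℤ} {ℓ : ℂ} (hℓ : ℓ ≠ 0)
    (hr : Leading L s₀ r ℓ) {τ : ℝ} (hτ : ∀ y : ℝ, 0 < y → L (s₀ + (1 + τ * I) * y) ≠ 0) :
    ∃ C : ℝ, ∀ᶠ x : ℝ in atTop, ‖exp (∑' i, tm B t s₀ τ x i) *
      (Real.log x / ((1 + τ * I) * Real.exp Pool.Agent.W189.LC.kap)) ^ r - ℓ‖ ≤ C / Real.log x := by
  have h1 := law_of_leading (h.ser s₀) hℓ ((leading_shift L s₀ r ℓ).2 hr)
    ((clear_iff' h.ent s₀ τ).2 hτ)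
  unfold Law at h1
  obtain ⟨C, hC⟩ := h1
  refine ⟨C, ?_⟩
  filter_upwards [hC] with x hx
  rw [sum_eq]
  exact hx

/-- the growth in the other directions -/
theorem Data.fast (h : Data B N w A t L) {s₀ : ℂ} {τ : ℝ}
    (hτ : ¬ ∀ y : ℝ, 0 < y → L (s₀ + (1 + τ * I) * y) ≠ 0) :
    ∃ c : ℝ, 0 < c ∧ ∀ᶠ x : ℝ in atTop, Real.exp (x ^ c) ≤ |(∑' i, tm B t s₀ τ x i).re| := by
  obtain ⟨r, ℓ, hℓ, hr⟩ := exists_leading (h.ser s₀)
  rcases alternative (h.ser s₀) hℓ hr τ with ⟨h1, -, -, -⟩ | ⟨-, h2, -, -⟩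
  · exact absurd ((clear_iff' h.ent s₀ τ).1 h1) hτ
  · obtain ⟨c, hc, hx⟩ := h2
    refine ⟨c, hc, ?_⟩
    filter_upwards [hx] with x hx
    rw [sum_eq]
    exact hx

/-- the series for the logarithm -/
theorem Data.logser (h : Data B N w A t L) {s : ℂ} (hs : w + 1 < s.re) :
    (Summable fun i : PP B × ℕ => ‖t i.1.1 (i.2 + 1) / (i.2 + 1) * (((i.1.1 : ℕ) : ℂ) ^ (-s)) ^ (i.2 + 1)‖) ∧
      L s = exp (∑' i : PP B × ℕ,
        t i.1.1 (i.2 + 1) / (i.2 + 1) * (((i.1.1 : ℕ) : ℂ) ^ (-s)) ^ (i.2 + 1)) := by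
  have h1 := h.half s.re
  have e : ∀ i : PP B × ℕ, co B t i * exp (-(G.plam (qq B) i * s)) =
      t i.1.1 (i.2 + 1) / (i.2 + 1) * (((i.1.1 : ℕ) : ℂ) ^ (-s)) ^ (i.2 + 1) := by
    intro i
    rw [G.exp_plam (norms B)]
    rfl
  constructor
  · refine (h1.sum s.re hs).congr fun i => ?_
    rw [← e, norm_term]
  · rw [h1.eq s hs]
    congr 1
    exact tsum_congr fun i => e i

/-- the growth in the other directions, with the last zero on the ray -/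
theorem Data.fast' (h : Data B N w A t L) {s₀ : ℂ} {τ : ℝ}
    (hτ : ∃ y : ℝ, 0 < y ∧ meromorphicOrderAt L (s₀ + (1 + τ * I) * y) ≠ 0) :
    ∃ (y : ℝ) (k : ℤ), 0 < y ∧ k ≠ 0 ∧ meromorphicOrderAt L (s₀ + (1 + τ * I) * y) = k ∧
      (∀ z : ℝ, y < z → meromorphicOrderAt L (s₀ + (1 + τ * I) * z) = 0) ∧
      ∀ c < y, ∀ᶠ x : ℝ in atTop,
        Real.exp (x ^ c) ≤ -(Int.sign k : ℝ) * (∑' i, tm B t s₀ τ x i).re := by
  have hs := h.ser s₀
  have hord : ∀ y : ℝ, meromorphicOrderAt (fun s => L (s₀ + s)) (rp τ y) =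
      meromorphicOrderAt L (s₀ + (1 + τ * I) * y) := by
    intro y
    rw [order_shift]
    rfl
  obtain ⟨y, hy, hyz⟩ := hτ
  rw [← hord] at hyz
  obtain ⟨x₀, h0, h01, hnz, hz⟩ := hs.exists_last τ
  have hx0 : 0 < x₀ := by
    by_contra hcon
    exact hyz (hnz y (by linarith))
  have hz' : meromorphicOrderAt (fun s => L (s₀ + s)) (rp τ x₀) ≠ 0 := by
    rcases hz with h2 | h2
    · exact absurd h2 hx0.ne'
    · exact h2
  obtain ⟨m, hm⟩ := WithTop.ne_top_iff_exists.1 (hs.ne_top (s := rp τ x₀) (by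
    rw [rp_re]
    linarith))
  have hm0 : m ≠ 0 := by
    rintro rfl
    exact hz' (by rw [← hm]; rfl)
  refine ⟨x₀, m, hx0, hm0, (hord x₀).symm.trans hm.symm, fun z hz => ?_, fun c hc => ?_⟩
  · rw [← hord]
    exact hnz z hz
  · filter_upwards [(blocked hs τ hx0 h01 hm.symm hm0 hnz).2 c hc] with x hx
    rw [sum_eq]
    exact hx

/-- the asymptotic formula in the other directions, with the last zero on the ray -/
theorem Data.fast2 (h : Data B N w A t L) {s₀ : ℂ} {τ : ℝ}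
    (hτ : ∃ y : ℝ, 0 < y ∧ meromorphicOrderAt L (s₀ + (1 + τ * I) * y) ≠ 0) :
    ∃ (y : ℝ) (k : ℤ), 0 < y ∧ k ≠ 0 ∧ meromorphicOrderAt L (s₀ + (1 + τ * I) * y) = k ∧
      (∀ z : ℝ, y < z → meromorphicOrderAt L (s₀ + (1 + τ * I) * z) = 0) ∧
      Tendsto (fun x : ℝ => (∑' i, tm B t s₀ τ x i) / grow (y * Real.log x)) atTop (𝓝 (-k)) ∧
      ∀ c < y, ∀ᶠ x : ℝ in atTop,
        Real.exp (x ^ c) ≤ |(∑' i, tm B t s₀ τ x i).re| := by
  have hs := h.ser s₀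
  have hord : ∀ y : ℝ, meromorphicOrderAt (fun s => L (s₀ + s)) (rp τ y) =
      meromorphicOrderAt L (s₀ + (1 + τ * I) * y) := by
    intro y
    rw [order_shift]
    rfl
  obtain ⟨y, hy, hyz⟩ := hτ
  rw [← hord] at hyz
  obtain ⟨x₀, h0, h01, hnz, hz⟩ := hs.exists_last τ
  have hx0 : 0 < x₀ := by
    by_contra hcon
    exact hyz (hnz y (by linarith))
  have hz' : meromorphicOrderAt (fun s => L (s₀ + s)) (rp τ x₀) ≠ 0 := by
    rcases hz with h2 | h2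
    · exact absurd h2 hx0.ne'
    · exact h2
  obtain ⟨m, hm⟩ := WithTop.ne_top_iff_exists.1 (hs.ne_top (s := rp τ x₀) (by
    rw [rp_re]
    linarith))
  have hm0 : m ≠ 0 := by
    rintro rfl
    exact hz' (by rw [← hm]; rfl)
  obtain ⟨g1, g2⟩ := blocked hs τ hx0 h01 hm.symm hm0 hnz
  refine ⟨x₀, m, hx0, hm0, (hord x₀).symm.trans hm.symm, fun z hz => ?_, ?_, fun c hc => ?_⟩
  · rw [← hord]
    exact hnz z hz
  · simp only [sum_eq]
    exact g1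
  · filter_upwards [g2 c hc] with x hx
    rw [sum_eq]
    have h7 : |(-(Int.sign m : ℝ))| ≤ 1 := by
      rcases lt_trichotomy m 0 with h6 | h6 | h6
      · rw [Int.sign_eq_neg_one_of_neg h6]; norm_num
      · rw [h6]; simp
      · rw [Int.sign_eq_one_of_pos h6]; norm_num
    refine hx.trans ((le_abs_self _).trans ?_)
    rw [abs_mul]
    exact mul_le_of_le_one_left (abs_nonneg _) h7

/-- the law for the inverse product at a point which is not a zero -/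
theorem Data.inv_law (h : Data B N w A t L) {s₀ : ℂ} (h0 : L s₀ ≠ 0) {τ : ℝ}
    (hτ : ∀ y : ℝ, 0 < y → L (s₀ + (1 + τ * I) * y) ≠ 0) :
    ∃ C : ℝ, ∀ᶠ x : ℝ in atTop, ‖exp (-∑' i, tm B t s₀ τ x i) - (L s₀)⁻¹‖ ≤ C / Real.log x := by
  obtain ⟨C, hC⟩ := h.law h0 (r := 0) (by
    unfold Leading
    have h1 : Tendsto L (𝓝[≠] s₀) (𝓝 (L s₀)) :=
      h.ent.continuous.continuousAt.tendsto.mono_left nhdsWithin_le_nhds
    simpa using h1) hτ
  set ℓ := L s₀ with hℓ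
  have hℓ0 : 0 < ‖ℓ‖ := norm_pos_iff.2 h0
  refine ⟨2 * C / ‖ℓ‖ ^ 2, ?_⟩
  filter_upwards [hC, Real.tendsto_log_atTop.eventually (eventually_gt_atTop 0),
    Real.tendsto_log_atTop.eventually (eventually_ge_atTop (2 * C / ‖ℓ‖))] with x h1 h2 h3
  rw [zpow_zero, mul_one] at h1
  set E := exp (∑' i, tm B t s₀ τ x i) with hE
  have hE0 : E ≠ 0 := exp_ne_zero _
  have h4 : C / Real.log x ≤ ‖ℓ‖ / 2 := by
    rw [div_le_iff₀ h2]
    rw [div_le_iff₀ hℓ0] at h3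
    linarith
  have h5 : ‖ℓ‖ / 2 ≤ ‖E‖ := by
    have h6 := norm_sub_norm_le ℓ E
    rw [norm_sub_rev] at h6
    linarith
  have h7 : exp (-∑' i, tm B t s₀ τ x i) - ℓ⁻¹ = -(E - ℓ) * (E⁻¹ * ℓ⁻¹) := by
    rw [exp_neg, ← hE]
    field_simp
    ring
  have hE1 : 0 < ‖E‖ := norm_pos_iff.2 hE0
  rw [h7, norm_mul, norm_neg, norm_mul, norm_inv, norm_inv]
  have h8 : ‖E‖⁻¹ ≤ (‖ℓ‖ / 2)⁻¹ := inv_anti₀ (by positivity) h5
  have hCx : 0 ≤ C / Real.log x := (norm_nonneg _).trans h1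
  calc ‖E - ℓ‖ * (‖E‖⁻¹ * ‖ℓ‖⁻¹) ≤ (C / Real.log x) * ((‖ℓ‖ / 2)⁻¹ * ‖ℓ‖⁻¹) := by gcongr
    _ = 2 * C / ‖ℓ‖ ^ 2 / Real.log x := by
      field_simp

/-- the leading term exists at every point -/
theorem Data.lead (h : Data B N w A t L) (s₀ : ℂ) : ∃ (r : ℤ) (ℓ : ℂ), ℓ ≠ 0 ∧ Leading L s₀ r ℓ := by
  obtain ⟨r, ℓ, hℓ, hr⟩ := exists_leading (h.ser s₀)
  exact ⟨r, ℓ, hℓ, (leading_shift L s₀ r ℓ).1 hr⟩

/-- the leading term at a point which is not a zero -/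
theorem leading_ne (hL : Differentiable ℂ L) {s₀ : ℂ} : Leading L s₀ 0 (L s₀) := by
  unfold Leading
  have h1 : Tendsto L (𝓝[≠] s₀) (𝓝 (L s₀)) :=
    hL.continuous.continuousAt.tendsto.mono_left nhdsWithin_le_nhds
  simpa using h1

end Pool.Agent.U745.QB
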